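import Pool.Agent.Q155.DF.Fin

/-!
# Directed hypercube flow with edge and vertex capacities: a counterexample

A vertex of the directed hypercube `{0,1}^d` is identified with the set of its coordinates equal to
`1`, an element of `Finset (Fin d)`; so `x ⪯ y` is `x ⊆ y`, `x ≺ y` is `x ⊂ y` and `|x|` is
`x.card`.  The definitions of matched pairs, of the directed volume `dvol`, of the separation
distance `sepDist`, of feasible flows `IsFlow` and of `maxflow` are in `Pool.Agent.Q155.DF.Defs`.

Question Q1 asks for an absolute constant `c > 0` such that for all `d ≥ 2` and all `S` with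
`dvol S ≥ 1` and separation distance `r` the maxflow with unit edge capacities and vertex
capacities `r²` is at least `c r dvol(S)`.  There is none: for every `c > 0` there are `d ≥ 2` and
`S ⊆ {0,1}^d` with `dvol S ≥ 1` and a number `K < c r dvol(S)` such that every feasible flow has
value at most `K`.

The set: `d = N + (2m+1)`.  If at least two of the first `N` coordinates are `1`, the point is in
`S`; if none is, it is not.  If exactly one of them is `1`, say the one with index `p`, then the
point is in `S` iff: (case `p = 0`) at most `m` of the last `2m+1` coordinates are `1`;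
(case `p ≠ 0`) the first of the last `2m+1` coordinates is `0`.  All violations of monotonicity are
inside the `N` cubes with address `p`.  The separation distance is the average of the numbers `1`
(`N-1` times) and `R`, about `(4m/π)^{1/2}`, while the cube `p = 0`, which contributes almost
everything to `r dvol(S)`, lets only `r² C(2m+1,m)` units of flow through its middle level.
-/

set_option autoImplicit false

namespace Pool.Agent.Results.MP_02b125_co.FlowGap

open Pool.Agent.Q155.DF

/-- For every `c > 0` there is a set `S` in a directed hypercube for which the maximal flow with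
unit edge capacities and vertex capacities `r²` is smaller than `c r dvol(S)`, where `r` is the
separation distance of `S`. -/
theorem result (c : ℝ) (hc : 0 < c) :
    ∃ (d : ℕ) (S : Finset (Finset (Fin d))), 2 ≤ d ∧ 1 ≤ dvol S ∧
      maxflow S 1 (sepDist S ^ 2) < c * sepDist S * (dvol S : ℝ) ∧
      ∃ K : ℝ, K < c * sepDist S * (dvol S : ℝ) ∧
        ∀ (f : Finset (Fin d) → Finset (Fin d) → ℝ) (s t : Finset (Fin d) → ℝ),
          IsFlow S 1 (sepDist S ^ 2) f s t → ∑ x, s x ≤ K := by
  obtain ⟨N, m, hN, h⟩ := exists_params c hc
  have p0 : Fin N := ⟨0, by omega⟩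
  have q0 : Fin (2 * m + 1) := ⟨0, by omega⟩
  refine ⟨N + (2 * m + 1), (finSplit N (2 * m + 1)).S p0 q0, by omega, ?_, ?_, ?_⟩
  · rw [Split.dvol_S]
    exact Nat.mul_pos (by omega) (by positivity)
  · rw [Split.dvol_S, Split.sepDist_S]
    exact lt_of_le_of_lt ((finSplit N (2 * m + 1)).maxflow_le p0 q0 (sq_nonneg _)) h
  · rw [Split.dvol_S, Split.sepDist_S]
    exact ⟨_, h, fun f s t hf => (finSplit N (2 * m + 1)).flow_le p0 q0 hf⟩

end Pool.Agent.Results.MP_02b125_co.FlowGap
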